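import Pool.Agent.H572R4.Stmts

/-! The classes `{0^ω}` and `{0^ω, 0^j 1 0^ω}` are `Π⁰₁`. -/

set_option autoImplicit false

namespace Pool.Agent.H97R3.PI

open Pool.Agent.Helper446.Defs Pool.Agent.Helper446.CB Pool.Agent.Helper446.RE
open Pool.Agent.H572R4

theorem taskD10 : TaskD10 := by
  intro j
  rw [isPi01_iff]
  refine ⟨{σ : List Bool | ∃ i : ℕ, σ[i]? = some true ∧ i ≠ j}, ?_, ?_⟩
  · refine exN (p := fun (σ : List Bool) (i : ℕ) => σ[i]? = some true ∧ i ≠ j) ?_
    refine Pool.Agent.Helper446.RE.and ?_ ?_
    · refine Pool.Agent.Helper446.RE.eq ?_ (Computable.const _)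
      exact Primrec.list_getElem?.to_comp.comp Computable.fst Computable.snd
    · exact Pool.Agent.Helper446.RE.ne Computable.snd (Computable.const _)
  · ext x
    constructor
    · rintro hx n ⟨i, hi, hij⟩
      have hin : i < n := by
        by_contra h
        rw [List.getElem?_eq_none (by rw [seg_length]; omega)] at hi
        cases hi
      rw [seg_getElem? x hin] at hi
      have hi' : x i = true := Option.some.inj hi
      rcases hx with rfl | hx
      · cases hi'
      · have hx' : x = xp j := hx
        rw [hx'] at hi'
        exact hij (of_decide_eq_true hi')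
    · intro h
      have h1 : ∀ i, i ≠ j → x i = false := by
        intro i hij
        by_contra hc
        have hc' : x i = true := by simpa using hc
        exact h (i + 1) ⟨i, by rw [seg_getElem? x (Nat.lt_succ_self i), hc'], hij⟩
      cases hj : x j with
      | false =>
        left
        funext i
        by_cases hij : i = j
        · rw [hij, hj]
          rfl
        · rw [h1 i hij]
          rfl
      | true =>
        right
        show x = xp j
        funext i
        by_cases hij : i = j
        · rw [hij, hj]
          simp [xp]
        · rw [h1 i hij]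
          simp [xp, hij]

theorem taskA2 : TaskA2 := by
  have h : ({zz} : Set (ℕ → Bool)) = {zz, xp 0} ∩ {zz, xp 1} := by
    ext x
    constructor
    · rintro hx
      exact ⟨Or.inl hx, Or.inl hx⟩
    · rintro ⟨h0, h1⟩
      rcases h0 with h0 | h0
      · exact h0
      · rcases h1 with h1 | h1
        · exact h1
        · exfalso
          have h2 : xp 0 = xp 1 := by
            rw [← show x = xp 0 from h0, ← show x = xp 1 from h1]
          have h3 := congrFun h2 0
          simp [xp] at h3
  show IsPi01 {zz}
  rw [h]
  exact IsPi01.inter (taskD10 0) (taskD10 1)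

end Pool.Agent.H97R3.PI
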